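import Pool.Agent.Run7.h293.CN.Defs
import Pool.Agent.Run7.h293.TS.A

/-!
# Subspaces stable under subgroups of finite index
-/

set_option autoImplicit false

namespace Run7.h293.CN

open Module Polynomial Pool.Agent.W569.FM Run7.h293.TS

section unip

variable {K V : Type} [Field K] [CharZero K] [AddCommGroup V] [Module K V]

/-- If `A` is unipotent then all powers of `A - 1` are polynomials in `A ^ n`. -/
theorem mem_adjoin_pow {A : End K V} (hA : IsNilpotent (A - 1)) {n : ℕ} (hn : n ≠ 0) :
    A ∈ Algebra.adjoin K ({A ^ n} : Set (End K V)) := by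
  obtain ⟨m, hm⟩ := hA
  obtain ⟨B, hB⟩ : ∃ B, B = A - 1 := ⟨_, rfl⟩
  obtain ⟨S, hS⟩ : ∃ S, S = Algebra.adjoin K ({A ^ n} : Set (End K V)) := ⟨_, rfl⟩
  rw [← hS]
  have hAn : A ^ n - 1 ∈ S := by
    rw [hS]
    exact Subalgebra.sub_mem _ (Algebra.subset_adjoin rfl) (Subalgebra.one_mem _)
  -- `A ^ n - 1 = n B + B ^ 2 * P(B)`
  obtain ⟨P, hP⟩ : ∃ P : K[X], A ^ n - 1 = (n : K) • B + B ^ 2 * aeval B P := by
    have h1 : (X + 1 : K[X]) ^ n - 1 = C (n : K) * X + X ^ 2 *
        (divX (divX ((X + 1 : K[X]) ^ n - 1))) := by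
      have h2 := divX_mul_X_add ((X + 1 : K[X]) ^ n - 1)
      have h3 := divX_mul_X_add (divX ((X + 1 : K[X]) ^ n - 1))
      have h4 : ((X + 1 : K[X]) ^ n - 1).coeff 0 = 0 := by
        rw [coeff_sub, coeff_zero_eq_eval_zero]
        simp
      have h5 : (divX ((X + 1 : K[X]) ^ n - 1)).coeff 0 = (n : K) := by
        rw [coeff_divX, coeff_sub, coeff_X_add_one_pow]
        simp [coeff_one]
      rw [h4, map_zero, add_zero] at h2
      rw [h5] at h3
      conv_lhs => rw [← h2, ← h3]
      ring
    refine ⟨divX (divX ((X + 1 : K[X]) ^ n - 1)), ?_⟩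
    have h6 := congrArg (aeval B) h1
    simp only [map_sub, map_pow, map_add, map_mul, aeval_X, map_one, aeval_C] at h6
    rw [show B + 1 = A by rw [hB]; abel] at h6
    rw [h6, Algebra.smul_def]
  -- descending induction
  have key : ∀ j : ℕ, ∀ i : ℕ, 1 ≤ i → m ≤ i + j → B ^ i ∈ S := by
    intro j
    induction j with
    | zero =>
      intro i _ hmi
      have h7 : B ^ i = 0 := by
        rw [hB]
        exact pow_eq_zero_of_le (by simpa using hmi) hm
      rw [h7]
      exact Subalgebra.zero_mem _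
    | succ j ih =>
      intro i hi hmi
      -- all elements of `B ^ (i + 1) K[B]` lie in `S`
      have h8 : ∀ Q : K[X], B ^ (i + 1) * aeval B Q ∈ S := by
        intro Q
        rw [aeval_eq_sum_range, Finset.mul_sum]
        refine Subalgebra.sum_mem _ fun k _ => ?_
        rw [mul_smul_comm, ← pow_add]
        exact Subalgebra.smul_mem _ (ih (i + 1 + k) (by omega) (by omega)) _
      have h9 : ∃ Q : K[X], (A ^ n - 1) ^ i = ((n : K) ^ i) • B ^ i + B ^ (i + 1) * aeval B Q := by
        have h10 : (C (n : K) * X + X ^ 2 * P) ^ i - C ((n : K) ^ i) * X ^ i ∈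
            Ideal.span {(X : K[X]) ^ (i + 1)} := by
          have h11 : ((C (n : K) * X + X ^ 2 * P) ^ i - C ((n : K) ^ i) * X ^ i : K[X]) =
              X ^ i * ((C (n : K) + X * P) ^ i - C (n : K) ^ i) := by
            rw [show (C (n : K) * X + X ^ 2 * P : K[X]) = X * (C (n : K) + X * P) by ring, mul_pow,
              C_pow]
            ring
          rw [h11, Ideal.mem_span_singleton, pow_succ]
          refine mul_dvd_mul_left _ ?_
          have h12 := sub_dvd_pow_sub_pow (C (n : K) + X * P) (C (n : K)) i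
          rw [add_sub_cancel_left] at h12
          exact (dvd_mul_right _ _).trans h12
        obtain ⟨Q, hQ⟩ := Ideal.mem_span_singleton.1 h10
        refine ⟨Q, ?_⟩
        have h13 := congrArg (aeval B) (sub_eq_iff_eq_add'.1 hQ)
        simp only [map_pow, map_add, map_mul, aeval_X, aeval_C] at h13
        rw [hP, Algebra.smul_def, h13, Algebra.smul_def, map_pow]
      obtain ⟨Q, hQ⟩ := h9
      have h14 : ((n : K) ^ i) • B ^ i ∈ S := by
        rw [show ((n : K) ^ i) • B ^ i = (A ^ n - 1) ^ i - B ^ (i + 1) * aeval B Q by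
          rw [hQ, add_sub_cancel_right]]
        exact Subalgebra.sub_mem _ (Subalgebra.pow_mem _ hAn i) (h8 Q)
      have h15 := Subalgebra.smul_mem _ h14 (((n : K) ^ i)⁻¹)
      rwa [smul_smul, inv_mul_cancel₀ (pow_ne_zero _ (Nat.cast_ne_zero.2 hn)), one_smul] at h15
  have h16 := key m 1 le_rfl (by omega)
  rw [pow_one] at h16
  rw [show A = B + 1 by rw [hB]; abel]
  exact Subalgebra.add_mem _ h16 (Subalgebra.one_mem _)

theorem adjoin_stable' {A B : End K V} {W : Submodule K V} (hA : ∀ x ∈ W, A x ∈ W)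
    (hB : B ∈ Algebra.adjoin K ({A} : Set (End K V))) : ∀ x ∈ W, B x ∈ W := by
  induction hB using Algebra.adjoin_induction with
  | mem B hB => rw [Set.mem_singleton_iff.1 hB]; exact hA
  | algebraMap r =>
    intro x hx
    rw [Module.algebraMap_end_apply]
    exact W.smul_mem r hx
  | add B C _ _ hB hC => exact fun x hx => W.add_mem (hB x hx) (hC x hx)
  | mul B C _ _ hB hC => exact fun x hx => hB _ (hC x hx)

/-- A subspace stable under a power of a unipotent endomorphism is stable. -/
theorem unip_stable {A : End K V} (hA : IsNilpotent (A - 1)) {n : ℕ} (hn : n ≠ 0)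
    {W : Submodule K V} (hW : ∀ x ∈ W, (A ^ n) x ∈ W) : ∀ x ∈ W, A x ∈ W :=
  adjoin_stable' hW (mem_adjoin_pow hA hn)

end unip

section

variable {F K V : Type} [Field F] [Field K] [TopologicalSpace K] [AddCommGroup V] [Module K V]
  {X : Rep F K V}

theorem rho_inv (g : GF F) (x : V) : X.ρ g (X.ρ g⁻¹ x) = x := by
  rw [← Module.End.mul_apply, ← map_mul, mul_inv_cancel, map_one, Module.End.one_apply]

theorem rho_inv' (g : GF F) (x : V) : X.ρ g⁻¹ (X.ρ g x) = x := by
  rw [← Module.End.mul_apply, ← map_mul, inv_mul_cancel, map_one, Module.End.one_apply]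

theorem map_mul_rho (g h : GF F) (W : Submodule K V) :
    W.map (X.ρ (g * h)) = (W.map (X.ρ h)).map (X.ρ g) := by
  rw [map_mul, Module.End.mul_eq_comp, Submodule.map_comp]

theorem map_one_rho (W : Submodule K V) : W.map (X.ρ 1) = W := by
  rw [map_one, Module.End.one_eq_id, Submodule.map_id]

/-- the stabilizer of a subspace -/
def stab (X : Rep F K V) (W : Submodule K V) : Subgroup (GF F) where
  carrier := {g | W.map (X.ρ g) = W}
  mul_mem' := fun {a b} ha hb => by
    change W.map (X.ρ (a * b)) = W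
    rw [map_mul_rho, show W.map (X.ρ b) = W from hb, show W.map (X.ρ a) = W from ha]
  one_mem' := map_one_rho W
  inv_mem' := fun {a} ha => by
    change W.map (X.ρ a⁻¹) = W
    conv_lhs => rw [← show W.map (X.ρ a) = W from ha]
    rw [← map_mul_rho, inv_mul_cancel, map_one_rho]

theorem mem_stab {W : Submodule K V} {g : GF F} : g ∈ stab X W ↔ W.map (X.ρ g) = W := Iff.rfl

theorem map_eq_of_stable [FiniteDimensional K V] {W : Submodule K V} {g : GF F}
    (h : ∀ x ∈ W, X.ρ g x ∈ W) : W.map (X.ρ g) = W := by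
  have h1 : W.map (X.ρ g) ≤ W := by
    rintro _ ⟨x, hx, rfl⟩
    exact h x hx
  refine Submodule.eq_of_le_of_finrank_eq h1 ?_
  have hinj : Function.Injective (X.ρ g) := by
    intro x y hxy
    rw [← rho_inv' (X := X) g x, hxy, rho_inv']
  exact (Submodule.equivMapOfInjective _ hinj W).finrank_eq.symm

theorem le_stab [FiniteDimensional K V] {H : Subgroup (GF F)} {W : Submodule K V}
    (h : X.StableUnder H W) : H ≤ stab X W := fun g hg => map_eq_of_stable (h g hg)

theorem stable_of_le {H : Subgroup (GF F)} {W : Submodule K V} (h : H ≤ stab X W) :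
    X.StableUnder H W := by
  intro g hg x hx
  have h1 : W.map (X.ρ g) = W := h hg
  rw [← h1]
  exact Submodule.mem_map_of_mem hx

/-- the orbit of a subspace -/
def orb (X : Rep F K V) (W : Submodule K V) : Set (Submodule K V) :=
  Set.range fun g : GF F => W.map (X.ρ g)

theorem orb_finite {W : Submodule K V} (h : (stab X W).FiniteIndex) : (orb X W).Finite := by
  have hfin : Finite (GF F ⧸ stab X W) := by
    rw [Subgroup.finiteIndex_iff_finite_quotient] at h
    exact h
  let f : GF F ⧸ stab X W → Submodule K V := Quotient.lift (fun g => W.map (X.ρ g)) (by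
    intro a b hab
    have h1 : a⁻¹ * b ∈ stab X W := QuotientGroup.leftRel_apply.1 hab
    have h2 : b = a * (a⁻¹ * b) := by group
    change W.map (X.ρ a) = W.map (X.ρ b)
    rw [h2, map_mul_rho, mem_stab.1 h1])
  refine (Set.finite_range f).subset ?_
  rintro _ ⟨g, rfl⟩
  exact ⟨(g : GF F ⧸ stab X W), rfl⟩

theorem orb_map {W W' : Submodule K V} (g : GF F) (h : W' ∈ orb X W) :
    W'.map (X.ρ g) ∈ orb X W := by
  obtain ⟨a, rfl⟩ := h
  exact ⟨g * a, map_mul_rho g a W⟩

/-- **subspaces stable under a subgroup of finite index are stable under all inertia groups** -/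
theorem stable_sup [CharZero K] [FiniteDimensional K V] {ℓ : ℕ} (hu : X.Unipotent ℓ)
    (hc : X.ConnectedAt ℓ) {H : Subgroup (GF F)} (hH : H.FiniteIndex) {W : Submodule K V}
    (hW : X.StableUnder H W) : X.StableUnder (H ⊔ unr F) W := by
  refine stable_of_le (sup_le (le_stab hW) ?_)
  have hfi : (stab X W).FiniteIndex := Subgroup.finiteIndex_of_le (le_stab hW)
  unfold unr
  rw [Subgroup.closure_le]
  rintro σ ⟨Q, hQ, hσ⟩
  change W.map (X.ρ σ) = W
  by_cases h : (ℓ : OO F) ∈ Q
  · exact hc _ (orb_finite hfi) (fun g W' h' => orb_map g h') Q hQ h σ hσ W ⟨1, map_one_rho W⟩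
  · obtain ⟨n, hn, -, hσn⟩ := Subgroup.exists_pow_mem_of_index_ne_zero hfi.index_ne_zero σ
    refine map_eq_of_stable (unip_stable (hu σ ⟨Q, hQ, h, hσ⟩) (Nat.pos_iff_ne_zero.1 hn) ?_)
    intro x hx
    rw [← map_pow]
    have h1 : W.map (X.ρ (σ ^ n)) = W := hσn
    rw [← h1]
    exact Submodule.mem_map_of_mem hx

theorem stab_closed [T1Space K] [FiniteDimensional K V] (W : Submodule K V) :
    IsClosed (stab X W : Set (GF F)) := by
  have h1 : (stab X W : Set (GF F)) = ⋂ (x ∈ W) (ξ : Dual K V) (_ : ∀ y ∈ W, ξ y = 0),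
      {g | ξ (X.ρ g x) = 0} := by
    ext g
    simp only [Set.mem_iInter, Set.mem_ofPred_eq, SetLike.mem_coe]
    constructor
    · intro hg x hx ξ hξ
      apply hξ
      rw [← mem_stab.1 hg]
      exact Submodule.mem_map_of_mem hx
    · intro h
      refine map_eq_of_stable fun x hx => ?_
      by_contra hne
      obtain ⟨ξ, hξ1, hξ2⟩ := Submodule.exists_dual_map_eq_bot_of_notMem hne inferInstance
      refine hξ1 (h x hx ξ fun y hy => ?_)
      have h2 : ξ y ∈ W.map ξ := Submodule.mem_map_of_mem hy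
      rw [hξ2] at h2
      exact h2
  rw [h1]
  refine isClosed_biInter fun x _ => isClosed_iInter fun ξ => isClosed_iInter fun _ => ?_
  exact (isClosed_singleton (x := (0 : K))).preimage (X.continuous ξ x)

/-- **subspaces stable under a subgroup of finite index are stable** -/
theorem stable_top [CharZero K] [T1Space K] [FiniteDimensional K V] {ℓ : ℕ}
    (hF : NoUnramified F) (hu : X.Unipotent ℓ) (hc : X.ConnectedAt ℓ) {H : Subgroup (GF F)}
    (hH : H.FiniteIndex) {W : Submodule K V} (hW : X.StableUnder H W) : X.StableUnder ⊤ W := by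
  have hfi : (stab X W).FiniteIndex := Subgroup.finiteIndex_of_le (le_stab hW)
  have h1 := hF (stab X W) (Subgroup.isOpen_of_isClosed_of_finiteIndex _ (stab_closed W))
    ((le_sup_right).trans (le_stab (stable_sup hu hc hH hW)))
  exact stable_of_le h1.ge

end

end Run7.h293.CN
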