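import Pool.Agent.Run7.h293.TS.Defs

/-!
# Galois representations with connected monodromy: definitions
-/

set_option autoImplicit false

namespace Run7.h293.CN

open Module Polynomial Pool.Agent.W569.FM Run7.h293.TS

/-- A representation `ρ` of the absolute Galois group of `F` on the vector space `V` over the
topological field `K`, with continuous matrix coefficients. -/
structure Rep (F K V : Type) [Field F] [Field K] [TopologicalSpace K] [AddCommGroup V]
    [Module K V] where
  /-- the representation -/
  ρ : Representation K (GF F) V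
  continuous : ∀ (ξ : Dual K V) (x : V), Continuous fun g => ξ (ρ g x)

variable {F K V : Type} [Field F] [Field K] [TopologicalSpace K] [AddCommGroup V] [Module K V]
  (X : Rep F K V)

/-- The inertia groups at the places which do not divide `ℓ` act by unipotent endomorphisms. -/
def Rep.Unipotent (ℓ : ℕ) : Prop := ∀ σ, AwayInertia ℓ σ → IsNilpotent (X.ρ σ - 1)

/-- The inertia groups above `ℓ` map each member of a finite Galois stable set of subspaces to
itself. -/
def Rep.ConnectedAt (ℓ : ℕ) : Prop := ∀ 𝒲 : Set (Submodule K V), 𝒲.Finite →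
  (∀ g, ∀ W ∈ 𝒲, W.map (X.ρ g) ∈ 𝒲) → ∀ Q : Ideal (OO F), Q.IsMaximal → (ℓ : OO F) ∈ Q →
    ∀ σ, InInertia Q σ → ∀ W ∈ 𝒲, W.map (X.ρ σ) = W

/-- The subspace `U` is stable under the subgroup `H`. -/
def Rep.StableUnder (H : Subgroup (GF F)) (U : Submodule K V) : Prop :=
  ∀ g ∈ H, ∀ x ∈ U, X.ρ g x ∈ U

end Run7.h293.CN
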